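import Pool.Agent.Q54.TG.Tann
import Pool.Agent.Q54.CU.Rg

/-!
# The Tannakian category generated by the homology of a variety and of a cubic hypersurface
-/

set_option autoImplicit false

universe u v w

namespace Q54.TG

open Q54.CU CategoryTheory Limits MonoidalCategory AlgebraicGeometry

variable {k : Type u} [Field k] {𝓜 : Type w} [Category.{v} 𝓜] [Abelian 𝓜] [MonoidalCategory 𝓜]

/-- Maps of the localization sequence `h_i(Z) → h_i(X) → h_i(U) → h_(i - 1)(Z)`. -/
structure LocSeq (h : ℤ → SchO k → 𝓜) (Z X U : SchO k) where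
  a : ∀ i, h i Z ⟶ h i X
  b : ∀ i, h i X ⟶ h i U
  d : ∀ i, h (i + 1) U ⟶ h i Z

/-- The sequence is exact. -/
def LocSeq.IsExact {h : ℤ → SchO k → 𝓜} {Z X U : SchO k} (s : LocSeq h Z X U) : Prop :=
  ∀ i, ExactAt (s.a i) (s.b i) ∧ ExactAt (s.b (i + 1)) (s.d i) ∧ ExactAt (s.d i) (s.a i)

/-- The standard properties of the motives `h i X` of the Borel-Moore homology `H_i(X)` of the
separated schemes `X` of finite type over `k`, in a category of mixed motives with Tate object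
`L = ℚ(1)`: localization sequences; for an affine bundle `E ⟶ B` of rank `r` the motive of
`H_(i + 2 r)(E)` is that of `H_i(B)` twisted `r` times; the homology of the point; and vanishing in
large degrees. -/
structure IsMotHomology (h : ℤ → SchO k → 𝓜) (L : 𝓜) : Prop where
  localization : ∀ {Z X U : SchO k} (i : Z ⟶ X) (j : U ⟶ X), IsVar X → IsDecomp i j →
    ∃ s : LocSeq h Z X U, s.IsExact
  bundle : ∀ {E B : SchO k} (r : ℕ) (p : E ⟶ B), IsVar E → IsVar B → IsAffineBundle r p.left →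
    ∀ i, Nonempty (h (i + 2 * r) E ≅ h i B ⊗ pw L r)
  point : Nonempty (h 0 (pt k) ≅ 𝟙_ 𝓜)
  point_zero : ∀ i, i ≠ 0 → IsZero (h i (pt k))
  bounded : ∀ X, IsVar X → ∃ N : ℕ, ∀ i : ℤ, N ≤ i → IsZero (h i X)

/-- The motives of the homology of `X`. -/
def homs (h : ℤ → SchO k → 𝓜) (X : SchO k) : Set 𝓜 := Set.range fun i => h i X

variable {h : ℤ → SchO k → 𝓜} {L : 𝓜}

lemma aff_zero [MonoidalPreadditive 𝓜] (hh : IsMotHomology h L) (M : ℕ) {i : ℤ} (hi : i ≠ 2 * M) :
    IsZero (h i (affO k M)) := by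
  obtain ⟨e⟩ := hh.bundle M (affTo k M) isVar_affO isVar_pt (affStr_bundle k M) (i - 2 * M)
  rw [sub_add_cancel] at e
  exact (isZero_tensor (hh.point_zero (i - 2 * M) (by omega)) _).of_iso e

lemma aff_top (hh : IsMotHomology h L) (M : ℕ) : Nonempty (h (2 * M) (affO k M) ≅ 𝟙_ 𝓜 ⊗ pw L M) := by
  obtain ⟨e⟩ := hh.bundle M (affTo k M) isVar_affO isVar_pt (affStr_bundle k M) 0
  rw [zero_add] at e
  obtain ⟨f⟩ := hh.point
  exact ⟨e ≪≫ (f ⊗ᵢ Iso.refl _)⟩

/-- The homology of the complement of `T` in the affine space. -/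
lemma compl_iso [MonoidalPreadditive 𝓜] (hh : IsMotHomology h L) {M : ℕ} {T U : SchO k}
    (i : T ⟶ affO k M) (j : U ⟶ affO k M) (hd : IsDecomp i j) {n : ℤ} (h1 : n ≠ 2 * M)
    (h2 : n + 1 ≠ 2 * M) : Nonempty (h (n + 1) U ≅ h n T) := by
  obtain ⟨s, hs⟩ := hh.localization i j isVar_affO hd
  have z1 : IsZero (h (n + 1) (affO k M)) := aff_zero hh M h2
  have z0 : IsZero (h n (affO k M)) := aff_zero hh M h1
  have hmono : Mono (s.d n) := by
    obtain ⟨_, hex⟩ := (hs n).2.1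
    exact hex.mono_g (z1.eq_of_src _ _)
  have hepi : Epi (s.d n) := by
    obtain ⟨_, hex⟩ := (hs n).2.2
    exact hex.epi_f (z0.eq_of_tgt _ _)
  have hiso : IsIso (s.d n) := isIso_of_mono_of_epi _
  exact ⟨asIso (s.d n)⟩

/-- The homology of the complement of `T` in the affine space in the top degree. -/
lemma compl_top (hh : IsMotHomology h L) {M : ℕ} {T U : SchO k}
    (i : T ⟶ affO k M) (j : U ⟶ affO k M) (hd : IsDecomp i j) (h1 : IsZero (h (2 * M) T))
    (h2 : IsZero (h (2 * M - 1) T)) : Nonempty (h (2 * M) (affO k M) ≅ h (2 * M) U) := by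
  obtain ⟨s, hs⟩ := hh.localization i j isVar_affO hd
  have hmono : Mono (s.b (2 * M)) := by
    obtain ⟨_, hex⟩ := (hs (2 * M)).1
    exact hex.mono_g (h1.eq_of_src _ _)
  have hepi : Epi (s.b (2 * M)) := by
    have h3 := (hs (2 * M - 1)).2.1
    have h4 : ∀ m : ℤ, m + 1 = 2 * M → ExactAt (s.b (m + 1)) (s.d m) → IsZero (h m T) →
        Epi (s.b (2 * M)) := by
      rintro m hm ⟨_, hex⟩ hz
      have h5 : Epi (s.b (m + 1)) := hex.epi_f (hz.eq_of_tgt _ _)
      rw [hm] at h5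
      exact h5
    exact h4 (2 * M - 1) (by ring) h3 h2
  have hiso : IsIso (s.b (2 * M)) := isIso_of_mono_of_epi _
  exact ⟨asIso (s.b (2 * M))⟩

lemma compl_above [MonoidalPreadditive 𝓜] (hh : IsMotHomology h L) {M : ℕ} {T U : SchO k}
    (i : T ⟶ affO k M) (j : U ⟶ affO k M) (hd : IsDecomp i j) (h1 : IsZero (h (2 * M) T)) :
    IsZero (h (2 * M + 1) U) := by
  obtain ⟨s, hs⟩ := hh.localization i j isVar_affO hd
  have z1 : IsZero (h (2 * M + 1) (affO k M)) := aff_zero hh M (by omega)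
  have hmono : Mono (s.d (2 * M)) := by
    obtain ⟨_, hex⟩ := (hs (2 * M)).2.1
    exact hex.mono_g (z1.eq_of_src _ _)
  exact IsZero.of_mono (s.d (2 * M)) h1

end Q54.TG
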