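import Pool.Agent.Q54.TG.Hom
import Pool.Agent.Q54.CU.Smo

/-!
# The Tannakian category generated by the homology of a variety and of a cubic hypersurface
-/

set_option autoImplicit false

universe u v w

namespace Q54.TG

open Q54.CU CategoryTheory Limits MonoidalCategory AlgebraicGeometry

variable {k : Type u} [Field k] {𝓜 : Type w} [Category.{v} 𝓜] [Abelian 𝓜] [MonoidalCategory 𝓜]
  [MonoidalPreadditive 𝓜] {h : ℤ → SchO k → 𝓜} {L : 𝓜}

/-- The varieties in the comparison: an affine bundle `T ⟶ X` with affine total space, given by the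
equations `q_j = 0` in an affine space whose dimension is large. -/
structure Setup (h : ℤ → SchO k → 𝓜) (X : SchO k) (s M r : ℕ)
    (q : Fin (r + 1) → MvPolynomial (Fin M) k) where
  T : SchO k
  p : T ⟶ X
  i : T ⟶ affO k M
  varT : IsVar T
  varX : IsVar X
  bundle : IsAffineBundle s p.left
  dec : IsDecomp i (cplInc q)
  top : IsZero (h (2 * M) T)
  top' : IsZero (h (2 * M - 1) T)

variable {X : SchO k} {s M r : ℕ} {q : Fin (r + 1) → MvPolynomial (Fin M) k}

section

variable (hh : IsMotHomology h L) (S : Setup h X s M r q) {C : 𝓜 → Prop} (hC : IsTann C)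

include hh S hC

/-- The homology of `X` is contained in the category generated by that of the hypersurface, up to a twist. -/
lemma up (hE : ∀ i, C (h i (hypO q 1))) (n : ℤ) : C ((h n X ⊗ pw L s) ⊗ pw L r) := by
  obtain ⟨e⟩ := hh.bundle s S.p S.varT S.varX S.bundle n
  by_cases h1 : n + 2 * s = 2 * M
  · rw [h1] at e
    exact hC.zero (isZero_tensor (S.top.of_iso e.symm) _)
  by_cases h2 : n + 2 * s = 2 * M - 1
  · rw [h2] at e
    exact hC.zero (isZero_tensor (S.top'.of_iso e.symm) _)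
  obtain ⟨f⟩ := compl_iso hh S.i (cplInc q) S.dec (n := n + 2 * s) h1 (by omega)
  obtain ⟨g⟩ := hh.bundle r (hypO_to q) (isVar_hypO q 1) (isVar_cplO q) (hypO_to_bundle q)
    (n + 2 * s + 1)
  exact hC.iso ⟨g ≪≫ (f ⊗ᵢ Iso.refl _) ≪≫ (e ⊗ᵢ Iso.refl _)⟩ (hE _)

/-- The homology of the hypersurface is contained in the category generated by that of `X` and `L`. -/
lemma down (hX : ∀ i, C (h i X)) (hL : C L) (n : ℤ) : C (h n (hypO q 1)) := by
  obtain ⟨g⟩ := hh.bundle r (hypO_to q) (isVar_hypO q 1) (isVar_cplO q) (hypO_to_bundle q)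
    (n - 2 * r)
  rw [sub_add_cancel] at g
  refine hC.iso ⟨g.symm⟩ (hC.tensor ?_ (hC.pow hL r))
  have key : ∀ m : ℤ, C (h m (cplO q)) := by
    intro m
    by_cases h1 : m = 2 * M
    · obtain ⟨e⟩ := compl_top hh S.i (cplInc q) S.dec S.top S.top'
      obtain ⟨f⟩ := aff_top hh (L := L) (k := k) M
      rw [h1]
      exact hC.iso ⟨f.symm ≪≫ e⟩ (hC.tensor hC.unit (hC.pow hL M))
    by_cases h2 : m = 2 * M + 1
    · rw [h2]
      exact hC.zero (compl_above hh S.i (cplInc q) S.dec S.top)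
    obtain ⟨f⟩ := compl_iso hh S.i (cplInc q) S.dec (n := m - 1) (by omega) (by omega)
    obtain ⟨e⟩ := hh.bundle s S.p S.varT S.varX S.bundle (m - 1 - 2 * s)
    rw [sub_add_cancel] at e f
    exact hC.iso ⟨(f ≪≫ e).symm⟩ (hC.tensor (hX _) (hC.pow hL s))
  exact key _

end

/-- There is a comparison as above, with equations of degree at most two. -/
lemma exists_setup (hh : IsMotHomology h L) (hX : IsVar X) (hT : HasAffineTorsor X) :
    ∃ (s M r : ℕ) (q : Fin (r + 1) → MvPolynomial (Fin M) k), (∀ j, (q j).totalDegree ≤ 2) ∧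
      Nonempty (Setup h X s M r q) := by
  obtain ⟨T, s, p, hT, ha, hp⟩ := hT
  obtain ⟨N, hN⟩ := hh.bounded T hT
  obtain ⟨M, r, q, i, hM, hq, hd⟩ := exists_decomp T hT.ft ha (N + 1)
  exact ⟨s, M, r, q, hq, ⟨⟨T, p, i, hT, hX, hp, hd, hN _ (by omega), hN _ (by omega)⟩⟩⟩

variable (hh : IsMotHomology h L) {L' : 𝓜} (hL : L ⊗ L' ≅ 𝟙_ 𝓜) (S : Setup h X s M r q)

include hh hL S

/-- If the homology of `X` has direct summands `ℚ(0)` and `ℚ(1)`, then it is contained in the category generated by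
the homology of the hypersurface. -/
lemma up_all {a b : ℤ} (h0 : IsRetract (𝟙_ 𝓜) (h a X)) (h1 : IsRetract L (h b X)) {C : 𝓜 → Prop} (hC : IsTann C)
    (hE : ∀ i, C (h i (hypO q 1))) : (∀ i, C (h i X)) ∧ C L := by
  have h2 : ∀ n : ℤ, C (h n X ⊗ (pw L s ⊗ pw L r)) := fun n =>
    hC.iso ⟨α_ _ _ _⟩ (up hh S hC hE n)
  obtain ⟨f⟩ := pw_inv hL s
  obtain ⟨g⟩ := pw_inv hL r
  obtain ⟨e⟩ := tens_inv f g
  have h3 : C (pw L s ⊗ pw L r) := hC.iso ⟨λ_ _⟩ (hC.retract (retract_tensor h0 _) (h2 a))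
  have h4 : C (L ⊗ (pw L s ⊗ pw L r)) := hC.retract (retract_tensor h1 _) (h2 b)
  exact ⟨fun i => hC.cancel e h3 (h2 i), hC.cancel e h3 h4⟩

/-- **The categories generated by the homology of `X` and of the hypersurface are equal.** -/
theorem tann_eq {a b : ℤ} (h0 : IsRetract (𝟙_ 𝓜) (h a X)) (h1 : IsRetract L (h b X)) :
    tann (homs h (hypO q 1)) = tann (homs h X) := by
  funext A
  refine propext ⟨fun hA C hC hX => ?_, fun hA C hC hE => ?_⟩
  · have hX : ∀ i, C (h i X) := fun i => hX _ ⟨i, rfl⟩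
    refine hA C hC ?_
    rintro _ ⟨i, rfl⟩
    exact down hh S hC hX (hC.retract h1 (hX b)) i
  · have hE : ∀ i, C (h i (hypO q 1)) := fun i => hE _ ⟨i, rfl⟩
    refine hA C hC ?_
    rintro _ ⟨i, rfl⟩
    exact (up_all hh hL S h0 h1 hC hE).1 i

/-- **The categories generated by the Tate object and by the homology of `X` and of the hypersurface are equal.** -/
theorem tann_eq' : tann (insert L (homs h (hypO q 1))) = tann (insert L (homs h X)) := by
  funext A
  refine propext ⟨fun hA C hC hX => ?_, fun hA C hC hE => ?_⟩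
  · have hX' : ∀ i, C (h i X) := fun i => hX _ (Or.inr ⟨i, rfl⟩)
    have hCL : C L := hX _ (Or.inl rfl)
    refine hA C hC ?_
    rintro _ (rfl | ⟨i, rfl⟩)
    · exact hCL
    · exact down hh S hC hX' hCL i
  · have hE' : ∀ i, C (h i (hypO q 1)) := fun i => hE _ (Or.inr ⟨i, rfl⟩)
    have hCL : C L := hE _ (Or.inl rfl)
    refine hA C hC ?_
    rintro _ (rfl | ⟨i, rfl⟩)
    · exact hCL
    · obtain ⟨f⟩ := pw_inv hL s
      obtain ⟨g⟩ := pw_inv hL r
      exact hC.cancel f (hC.pow hCL s) (hC.cancel g (hC.pow hCL r) (up hh S hC hE' i))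

end Q54.TG
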