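import Pool.Agent.Q54.TG.Main

/-!
# One object that generates the category of the homology of a variety
-/

set_option autoImplicit false

universe u v w

namespace Q54.TG

open Q54.CU CategoryTheory Limits MonoidalCategory AlgebraicGeometry

variable {𝓜 : Type w} [Category.{v} 𝓜] [Abelian 𝓜] [MonoidalCategory 𝓜]

/-- The direct sum of the unit object and of the first `n` members of a sequence. -/
noncomputable def sumTo (f : ℕ → 𝓜) : ℕ → 𝓜
  | 0 => 𝟙_ 𝓜
  | n + 1 => sumTo f n ⊞ f n

lemma sumTo_mem (f : ℕ → 𝓜) {C : 𝓜 → Prop} (hC : IsTann C) (h : ∀ n, C (f n)) (n : ℕ) : C (sumTo f n) := by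
  induction n with
  | zero => exact hC.unit
  | succ n ih => exact hC.sum ih (h n)

lemma IsRetract.trans {A B C : 𝓜} (h : IsRetract A B) (h' : IsRetract B C) : IsRetract A C := by
  obtain ⟨s, r, h⟩ := h
  obtain ⟨s', r', h'⟩ := h'
  refine ⟨s ≫ s', r' ≫ r, ?_⟩
  rw [Category.assoc, reassoc_of% h', h]

lemma sumTo_retract (f : ℕ → 𝓜) {m n : ℕ} (h : m < n) : IsRetract (f m) (sumTo f n) := by
  induction n with
  | zero => exact absurd h (Nat.not_lt_zero m)
  | succ n ih =>
    rcases Nat.lt_succ_iff_lt_or_eq.1 h with h1 | rfl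
    · exact (ih h1).trans ⟨biprod.inl, biprod.fst, biprod.inl_fst⟩
    · exact ⟨biprod.inr, biprod.snd, biprod.inr_snd⟩

lemma tann_mem {S : Set 𝓜} {A : 𝓜} (hA : A ∈ S) : tann S A := fun _ _ h => h A hA

lemma isTann_tann (S : Set 𝓜) : IsTann (tann S) where
  iso h hA C hC hS := hC.iso h (hA C hC hS)
  unit _ hC _ := hC.unit
  tensor hA hB C hC hS := hC.tensor (hA C hC hS) (hB C hC hS)
  sum hA hB C hC hS := hC.sum (hA C hC hS) (hB C hC hS)
  sub f hf hB C hC hS := hC.sub f hf (hB C hC hS)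
  quot f hf hA C hC hS := hC.quot f hf (hA C hC hS)
  dual h hA C hC hS := hC.dual h (hA C hC hS)
  inverse h hA C hC hS := hC.inverse h (hA C hC hS)

/-- The direct sum of the motives of the homology of a variety generates the same category. -/
lemma tann_sumTo {k : Type u} [Field k] (h : ℤ → SchO k → 𝓜) (X : SchO k) (N : ℕ)
    (h0 : ∀ i : ℤ, i < 0 → IsZero (h i X)) (h1 : ∀ i : ℤ, N ≤ i → IsZero (h i X)) :
    tann {sumTo (fun n => h n X) N} = tann (homs h X) := by
  funext A
  refine propext ⟨fun hA C hC hS => hA C hC ?_, fun hA C hC hS => hA C hC ?_⟩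
  · rintro _ rfl
    exact sumTo_mem _ hC (fun n => hS _ ⟨n, rfl⟩) N
  · have h2 : C (sumTo (fun n => h n X) N) := hS _ rfl
    rintro _ ⟨i, rfl⟩
    rcases lt_or_ge i 0 with hi | hi
    · exact hC.zero (h0 i hi)
    rcases lt_or_ge i N with hi' | hi'
    · lift i to ℕ using hi
      exact hC.retract (sumTo_retract (fun n : ℕ => h n X) (by omega)) h2
    · exact hC.zero (h1 i hi')

end Q54.TG
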