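import Mathlib

/-!
# Tannakian subcategories
-/

set_option autoImplicit false

universe v w

namespace Q54.TG

open CategoryTheory Limits MonoidalCategory

variable {𝓜 : Type w} [Category.{v} 𝓜] [Abelian 𝓜] [MonoidalCategory 𝓜]

/-- The objects of a Tannakian subcategory: they are closed under isomorphisms, tensor products,
direct sums, subobjects, quotients and duals, and contain the unit object. The inverse `B` of an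
invertible object `A` is its dual. -/
structure IsTann (C : 𝓜 → Prop) : Prop where
  iso : ∀ {A B : 𝓜}, Nonempty (A ≅ B) → C A → C B
  unit : C (𝟙_ 𝓜)
  tensor : ∀ {A B : 𝓜}, C A → C B → C (A ⊗ B)
  sum : ∀ {A B : 𝓜}, C A → C B → C (A ⊞ B)
  sub : ∀ {A B : 𝓜} (f : A ⟶ B), Mono f → C B → C A
  quot : ∀ {A B : 𝓜} (f : A ⟶ B), Epi f → C A → C B
  dual : ∀ {A B : 𝓜}, Nonempty (ExactPairing A B) → C A → C B
  inverse : ∀ {A B : 𝓜}, Nonempty (A ⊗ B ≅ 𝟙_ 𝓜) → C A → C B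

/-- The Tannakian subcategory generated by the objects in `S`. -/
def tann (S : Set 𝓜) (A : 𝓜) : Prop := ∀ C : 𝓜 → Prop, IsTann C → (∀ B ∈ S, C B) → C A

/-- The tensor powers of `L`. -/
def pw (L : 𝓜) : ℕ → 𝓜
  | 0 => 𝟙_ 𝓜
  | n + 1 => pw L n ⊗ L

/-- The tensor powers of `L`. -/
def pw' (L : 𝓜) : ℕ → 𝓜
  | 0 => 𝟙_ 𝓜
  | n + 1 => L ⊗ pw' L n

/-- `A` is a direct summand of `B`. -/
def IsRetract (A B : 𝓜) : Prop := ∃ (s : A ⟶ B) (r : B ⟶ A), s ≫ r = 𝟙 A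

section

variable {C : 𝓜 → Prop} (hC : IsTann C)

include hC

lemma IsTann.pow {L : 𝓜} (hL : C L) (n : ℕ) : C (pw L n) := by
  induction n with
  | zero => exact hC.unit
  | succ n ih => exact hC.tensor ih hL

lemma IsTann.retract {A B : 𝓜} (h : IsRetract A B) (hB : C B) : C A := by
  obtain ⟨s, r, h⟩ := h
  have h1 : IsSplitMono s := ⟨⟨⟨r, h⟩⟩⟩
  exact hC.sub s inferInstance hB

lemma IsTann.zero {Z : 𝓜} (hZ : IsZero Z) : C Z := by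
  have h1 : Mono (0 : Z ⟶ 𝟙_ 𝓜) := ⟨fun _ _ _ => hZ.eq_of_tgt _ _⟩
  exact hC.sub _ h1 hC.unit

/-- Cancellation of an invertible object. -/
lemma IsTann.cancel {A P P' : 𝓜} (e : P ⊗ P' ≅ 𝟙_ 𝓜) (hP : C P) (hA : C (A ⊗ P)) : C A := by
  have h1 : C P' := hC.inverse ⟨e⟩ hP
  have h2 : C ((A ⊗ P) ⊗ P') := hC.tensor hA h1
  exact hC.iso ⟨α_ A P P' ≪≫ (Iso.refl A ⊗ᵢ e) ≪≫ ρ_ A⟩ h2

end

/-- The tensor powers of an invertible object are invertible. -/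
lemma pw_inv {L L' : 𝓜} (e : L ⊗ L' ≅ 𝟙_ 𝓜) (n : ℕ) : Nonempty (pw L n ⊗ pw' L' n ≅ 𝟙_ 𝓜) := by
  induction n with
  | zero => exact ⟨ρ_ (𝟙_ 𝓜)⟩
  | succ n ih =>
    obtain ⟨f⟩ := ih
    let g : (pw L n ⊗ L) ⊗ (L' ⊗ pw' L' n) ≅ pw L n ⊗ pw' L' n :=
      α_ _ _ _ ≪≫ (Iso.refl _ ⊗ᵢ ((α_ _ _ _).symm ≪≫ (e ⊗ᵢ Iso.refl _) ≪≫ λ_ _))
    exact ⟨g ≪≫ f⟩

lemma tens_inv {P P' Q Q' : 𝓜} (e : P ⊗ P' ≅ 𝟙_ 𝓜) (f : Q ⊗ Q' ≅ 𝟙_ 𝓜) :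
    Nonempty ((P ⊗ Q) ⊗ (Q' ⊗ P') ≅ 𝟙_ 𝓜) :=
  ⟨α_ _ _ _ ≪≫ (Iso.refl _ ⊗ᵢ ((α_ _ _ _).symm ≪≫ (f ⊗ᵢ Iso.refl _) ≪≫ λ_ _)) ≪≫ e⟩

lemma retract_tensor {A B : 𝓜} (h : IsRetract A B) (P : 𝓜) : IsRetract (A ⊗ P) (B ⊗ P) := by
  obtain ⟨s, r, h⟩ := h
  refine ⟨s ▷ P, r ▷ P, ?_⟩
  rw [← comp_whiskerRight, h, id_whiskerRight]

lemma isZero_tensor [MonoidalPreadditive 𝓜] {Z : 𝓜} (hZ : IsZero Z) (P : 𝓜) : IsZero (Z ⊗ P) := by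
  rw [IsZero.iff_id_eq_zero, ← id_whiskerRight, (IsZero.iff_id_eq_zero Z).1 hZ]
  exact MonoidalPreadditive.zero_whiskerRight

end Q54.TG
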